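import Pool.Agent.W555.KS.Defs

set_option autoImplicit false

/-! # KS-ALGO (helper655): the odd version of the main identity -/

namespace Pool.Agent.W655.KS

open Finset MvPolynomial Pool.Agent.W555.KS

theorem fib_eq {n m : ℕ} (h : Fin m → Fin n) (v : Fin n) :
    fib h v = ∑ i, if h i = v then 1 else 0 := by
  rw [fib, Finset.card_filter]

theorem fib_snoc {n m : ℕ} (h : Fin (m + 1) → Fin n) (v : Fin n) :
    fib h v = fib (fun i : Fin m => h i.castSucc) v + if h (Fin.last m) = v then 1 else 0 := by
  rw [fib_eq, fib_eq, Fin.sum_univ_castSucc]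

theorem fib_castSucc {n m : ℕ} (h : Fin m → Fin n) (v : Fin n) :
    fib (fun i => (h i).castSucc) v.castSucc = fib h v := by
  simp [fib_eq]

theorem fib_last {n m : ℕ} (h : Fin m → Fin n) :
    fib (fun i => (h i).castSucc) (Fin.last n) = 0 := by
  rw [fib_eq]
  apply Finset.sum_eq_zero
  intro i _
  rw [if_neg (Fin.castSucc_ne_last _)]

/-- extension of a function by the new vertex -/
def up {n m : ℕ} (h : Fin m → Fin n) : Fin (m + 1) → Fin (n + 1) :=
  Fin.snoc (α := fun _ => Fin (n + 1)) (fun i => (h i).castSucc) (Fin.last n)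

theorem up_castSucc {n m : ℕ} (h : Fin m → Fin n) (i : Fin m) : up h i.castSucc = (h i).castSucc := by
  simp [up]

theorem up_last {n m : ℕ} (h : Fin m → Fin n) : up h (Fin.last m) = Fin.last n := by
  simp [up]

theorem up_inj {n m : ℕ} : Function.Injective (up (n := n) (m := m)) := by
  intro h h' e
  funext i
  have := congrFun e i.castSucc
  rw [up_castSucc, up_castSucc] at this
  exact Fin.castSucc_injective _ this

/-- every function all of whose values off the last row avoid the new vertex comes from below -/
theorem eq_up {n m : ℕ} (g : Fin (m + 1) → Fin (n + 1)) (h1 : g (Fin.last m) = Fin.last n)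
    (h2 : ∀ i : Fin m, g i.castSucc ≠ Fin.last n) : ∃ h : Fin m → Fin n, up h = g := by
  refine ⟨fun i => (g i.castSucc).castPred (h2 i), ?_⟩
  funext i
  refine Fin.lastCases ?_ (fun j => ?_) i
  · rw [up_last, h1]
  · rw [up_castSucc, Fin.castSucc_castPred]

/-- the extended set -/
def upS {n : ℕ} (U : Finset (Fin n)) : Finset (Fin (n + 1)) :=
  insert (Fin.last n) (U.map Fin.castSuccEmb)

theorem last_not_mem {n : ℕ} (U : Finset (Fin n)) : Fin.last n ∉ U.map Fin.castSuccEmb := by
  simp [Finset.mem_map]

theorem castSucc_mem_upS {n : ℕ} (U : Finset (Fin n)) (v : Fin n) : v.castSucc ∈ upS U ↔ v ∈ U := by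
  simp [upS, Finset.mem_insert, Finset.mem_map, Fin.castSucc_ne_last]

theorem last_mem_upS {n : ℕ} (U : Finset (Fin n)) : Fin.last n ∈ upS U := by
  simp [upS]

theorem upS_inj {n : ℕ} : Function.Injective (upS (n := n)) := by
  intro U V e
  ext v
  rw [← castSucc_mem_upS, ← castSucc_mem_upS V, e]

theorem card_upS {n : ℕ} (U : Finset (Fin n)) : (upS U).card = U.card + 1 := by
  rw [upS, Finset.card_insert_of_notMem (last_not_mem U), Finset.card_map]

theorem exists_upS {n : ℕ} (V : Finset (Fin (n + 1))) (hV : Fin.last n ∈ V) :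
    ∃ U : Finset (Fin n), upS U = V := by
  refine ⟨univ.filter (fun v => v.castSucc ∈ V), ?_⟩
  ext w
  refine Fin.lastCases ?_ (fun j => ?_) w
  · simp [last_mem_upS, hV]
  · rw [castSucc_mem_upS]
    simp

theorem rank_castSucc {n : ℕ} (U : Finset (Fin n)) (v : Fin n) :
    ((upS U).filter (fun w => w < v.castSucc)).card = (U.filter (fun w => w < v)).card := by
  have : (upS U).filter (fun w => w < v.castSucc) =
      (U.filter (fun w => w < v)).map Fin.castSuccEmb := by
    ext w
    refine Fin.lastCases ?_ (fun j => ?_) w
    · simp [Finset.mem_map, Fin.le_last]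
    · rw [Finset.mem_filter, castSucc_mem_upS, Finset.mem_map]
      simp
  rw [this, Finset.card_map]

theorem rank_last {n : ℕ} (U : Finset (Fin n)) :
    ((upS U).filter (fun w => w < Fin.last n)).card = U.card := by
  have : (upS U).filter (fun w => w < Fin.last n) = U.map Fin.castSuccEmb := by
    ext w
    refine Fin.lastCases ?_ (fun j => ?_) w
    · simp [Finset.mem_map]
    · rw [Finset.mem_filter, castSucc_mem_upS, Finset.mem_map]
      simp [Fin.castSucc_lt_last]
  rw [this, Finset.card_map]

theorem evenPart_upS {n : ℕ} (U : Finset (Fin n)) (hU : ¬ Even U.card) :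
    evenPart (upS U) = (evenPart U).map Fin.castSuccEmb := by
  ext w
  refine Fin.lastCases ?_ (fun j => ?_) w
  · rw [evenPart, Finset.mem_filter, rank_last]
    simp only [hU, and_false, false_iff]
    exact last_not_mem _
  · rw [evenPart, Finset.mem_filter, rank_castSucc, castSucc_mem_upS, Finset.mem_map]
    simp [evenPart]

theorem oddPart_upS {n : ℕ} (U : Finset (Fin n)) (hU : ¬ Even U.card) :
    oddPart (upS U) = upS (oddPart U) := by
  ext w
  refine Fin.lastCases ?_ (fun j => ?_) w
  · rw [oddPart, Finset.mem_filter, rank_last]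
    simp only [hU, not_false_eq_true, and_true, last_mem_upS]
  · rw [oddPart, Finset.mem_filter, rank_castSucc, castSucc_mem_upS, castSucc_mem_upS, oddPart,
      Finset.mem_filter]

theorem image_up {n m : ℕ} (h : Fin m → Fin n) : univ.image (up h) = upS (univ.image h) := by
  ext w
  refine Fin.lastCases ?_ (fun j => ?_) w
  · simp only [last_mem_upS, iff_true, Finset.mem_image]
    exact ⟨Fin.last m, Finset.mem_univ _, up_last h⟩
  · rw [castSucc_mem_upS, Finset.mem_image, Finset.mem_image]
    constructor
    · rintro ⟨i, -, hi⟩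
      revert hi
      refine Fin.lastCases ?_ (fun l => ?_) i
      · intro hi
        rw [up_last] at hi
        exact absurd hi.symm (Fin.castSucc_ne_last _)
      · intro hi
        rw [up_castSucc] at hi
        exact ⟨l, Finset.mem_univ _, Fin.castSucc_injective _ hi⟩
    · rintro ⟨i, -, hi⟩
      exact ⟨i.castSucc, Finset.mem_univ _, by rw [up_castSucc, hi]⟩

theorem up_injective_iff {n m : ℕ} (h : Fin m → Fin n) :
    Function.Injective (up h) ↔ Function.Injective h := by
  constructor
  · intro hi i j hij
    have := @hi i.castSucc j.castSucc (by rw [up_castSucc, up_castSucc, hij])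
    exact Fin.castSucc_injective _ this
  · intro hi i j
    refine Fin.lastCases ?_ (fun i => ?_) i
    · refine Fin.lastCases ?_ (fun j => ?_) j
      · intro _; rfl
      · intro h'
        rw [up_last, up_castSucc] at h'
        exact absurd h'.symm (Fin.castSucc_ne_last _)
    · refine Fin.lastCases ?_ (fun j => ?_) j
      · intro h'
        rw [up_last, up_castSucc] at h'
        exact absurd h' (Fin.castSucc_ne_last _)
      · intro h'
        rw [up_castSucc, up_castSucc] at h'
        rw [hi (Fin.castSucc_injective _ h')]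

section Mat

variable {k : Type} [Field k] {n m : ℕ}

/-- the matrix with one more row and one more column -/
def mat (a : Fin m → Fin n → k) (c : Fin m → k) : Fin (m + 1) → Fin (n + 1) → k :=
  Fin.snoc (α := fun _ => Fin (n + 1) → k) (fun i => Fin.snoc (α := fun _ => k) (a i) (c i))
    (Fin.snoc (α := fun _ => k) (fun _ => 0) 1)

theorem mat_cc (a : Fin m → Fin n → k) (c : Fin m → k) (i : Fin m) (v : Fin n) :
    mat a c i.castSucc v.castSucc = a i v := by simp [mat]

theorem mat_cl (a : Fin m → Fin n → k) (c : Fin m → k) (i : Fin m) :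
    mat a c i.castSucc (Fin.last n) = c i := by simp [mat]

theorem mat_lc (a : Fin m → Fin n → k) (c : Fin m → k) (v : Fin n) :
    mat a c (Fin.last m) v.castSucc = 0 := by simp [mat]

theorem mat_ll (a : Fin m → Fin n → k) (c : Fin m → k) :
    mat a c (Fin.last m) (Fin.last n) = 1 := by simp [mat]

theorem prod_up (a : Fin m → Fin n → k) (c : Fin m → k) (h : Fin m → Fin n) :
    ∏ i, mat a c i (up h i) = ∏ i, a i (h i) := by
  rw [Fin.prod_univ_castSucc, up_last, mat_ll, mul_one]
  refine Finset.prod_congr rfl fun i _ => ?_
  rw [up_castSucc, mat_cc]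

theorem last_of_prod_ne (a : Fin m → Fin n → k) (c : Fin m → k) (g : Fin (m + 1) → Fin (n + 1))
    (h0 : ∏ i, mat a c i (g i) ≠ 0) : g (Fin.last m) = Fin.last n := by
  by_contra hne
  apply h0
  apply Finset.prod_eq_zero (Finset.mem_univ (Fin.last m))
  obtain ⟨v, hv⟩ : ∃ v : Fin n, v.castSucc = g (Fin.last m) := ⟨(g (Fin.last m)).castPred hne, by simp⟩
  rw [← hv, mat_lc]

theorem bra_upS (a : Fin m → Fin n → k) (c : Fin m → k) (U : Finset (Fin n)) :
    bra (mat a c) (upS U) = bra a U := by
  symm
  refine Finset.sum_of_injOn up (fun _ _ _ _ e => up_inj e) ?_ ?_ ?_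
  · intro h hh
    simp only [Finset.coe_filter, Finset.mem_univ, true_and, Set.mem_ofPred_eq] at hh ⊢
    refine ⟨(up_injective_iff h).2 hh.1, ?_⟩
    rw [image_up, hh.2]
  · intro g hg hng
    by_contra h0
    apply hng
    simp only [Finset.mem_filter, Finset.mem_univ, true_and] at hg
    have h1 := last_of_prod_ne a c g h0
    obtain ⟨h, rfl⟩ := eq_up g h1 (fun i hi => by
      have := hg.1 (hi.trans h1.symm)
      exact absurd this (Fin.castSucc_ne_last _))
    refine ⟨h, ?_, rfl⟩
    simp only [Finset.coe_filter, Finset.mem_univ, true_and, Set.mem_ofPred_eq]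
    refine ⟨(up_injective_iff h).1 hg.1, ?_⟩
    have := hg.2
    rw [image_up] at this
    exact upS_inj this
  · intro h _
    exact (prod_up a c h).symm

theorem bra_ne (a : Fin m → Fin n → k) (c : Fin m → k) (V : Finset (Fin (n + 1)))
    (h0 : bra (mat a c) V ≠ 0) : Fin.last n ∈ V := by
  obtain ⟨g, hg, hg0⟩ := Finset.exists_ne_zero_of_sum_ne_zero h0
  simp only [Finset.mem_filter, Finset.mem_univ, true_and] at hg
  rw [← hg.2, ← last_of_prod_ne a c g hg0]
  exact Finset.mem_image_of_mem _ (Finset.mem_univ _)

end Mat

theorem algo (h : StAlg) : StAlgO := by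
  intro k R _ _ _ _ n q a x M hx
  set om : R := ∑ v, a (Fin.last (2 * q)) v • x v with hom
  let c : Fin (2 * q + 1) → k := fun i => if i = Fin.last (2 * q) then 1 else 0
  let x' : Fin (n + 1) → R := Fin.snoc (α := fun _ => R) x om
  have x'c : ∀ v : Fin n, x' v.castSucc = x v := fun v => by simp [x']
  have x'l : x' (Fin.last n) = om := by simp [x']
  have H : (∀ i : Fin (2 * q + 1 + 1), (i : ℕ) + 1 < 2 * q + 1 + 1 →
      ∑ v, mat a c i v • x' v = 0) →
      ∑ U ∈ powersetCard (2 * q + 1 + 1) univ,
        bra (mat a c) U * M (∏ v ∈ evenPart U, x' v) * M (∏ v ∈ oddPart U, x' v)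
      = ∑ h ∈ (univ : Finset (Fin (2 * q + 1 + 1) → Fin (n + 1))).filter EvenFun,
        (∏ i, mat a c i (h i)) * M (halfMon x' h) ^ 2 := h k R (n + 1) (q + 1) (mat a c) x' M
  have two : ∀ r : R, r + r = 0 := by
    intro r
    have h1 : r + r = (2 : k) • r := by rw [two_smul]
    rw [h1, CharTwo.two_eq_zero, zero_smul]
  have H1 := H ?_
  · -- left side
    have eL : ∑ U ∈ powersetCard (2 * q + 1) univ,
        bra a U * M (∏ v ∈ evenPart U, x v) * M (om * ∏ v ∈ oddPart U, x v) =
        ∑ U ∈ powersetCard (2 * q + 1 + 1) univ,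
        bra (mat a c) U * M (∏ v ∈ evenPart U, x' v) * M (∏ v ∈ oddPart U, x' v) := by
      refine Finset.sum_of_injOn upS (fun _ _ _ _ e => upS_inj e) ?_ ?_ ?_
      · intro U hU
        rw [Finset.mem_coe, Finset.mem_powersetCard] at hU ⊢
        refine ⟨Finset.subset_univ _, ?_⟩
        rw [card_upS, hU.2]
      · intro V hV hn
        by_contra h0
        apply hn
        have hb : bra (mat a c) V ≠ 0 := fun hb => h0 (by rw [hb]; ring)
        obtain ⟨U, rfl⟩ := exists_upS V (bra_ne a c V hb)
        refine ⟨U, ?_, rfl⟩
        rw [Finset.mem_powersetCard, card_upS] at hV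
        rw [Finset.mem_coe, Finset.mem_powersetCard]
        exact ⟨Finset.subset_univ _, by omega⟩
      · intro U hU
        rw [Finset.mem_powersetCard] at hU
        have hodd : ¬ Even U.card := by
          rw [hU.2]
          simp
        rw [bra_upS, evenPart_upS U hodd, oddPart_upS U hodd, upS,
          Finset.prod_insert (last_not_mem _), Finset.prod_map, Finset.prod_map, x'l]
        simp only [Fin.coe_castSuccEmb, x'c]
    have eR : ∑ h ∈ (univ : Finset (Fin (2 * q) → Fin n)).filter EvenFun,
        (∏ i : Fin (2 * q), a i.castSucc (h i)) * M (om * halfMon x h) ^ 2 =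
        ∑ h ∈ (univ : Finset (Fin (2 * q + 1 + 1) → Fin (n + 1))).filter EvenFun,
        (∏ i, mat a c i (h i)) * M (halfMon x' h) ^ 2 := by
      let e : (Fin (2 * q) → Fin n) → (Fin (2 * q + 1 + 1) → Fin (n + 1)) := fun h =>
        Fin.snoc (α := fun _ => Fin (n + 1)) (up h) (Fin.last n)
      have ec : ∀ h (i : Fin (2 * q + 1)), e h i.castSucc = up h i := fun h i => by simp [e]
      have el : ∀ h, e h (Fin.last (2 * q + 1)) = Fin.last n := fun h => by simp [e]
      have fc : ∀ h (v : Fin n), fib (e h) v.castSucc = fib h v := by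
        intro h v
        rw [fib_snoc, el, if_neg (Fin.castSucc_ne_last v).symm, add_zero]
        simp only [ec]
        rw [fib_snoc, up_last, if_neg (Fin.castSucc_ne_last v).symm, add_zero]
        simp only [up_castSucc]
        exact fib_castSucc h v
      have fl : ∀ h, fib (e h) (Fin.last n) = 2 := by
        intro h
        rw [fib_snoc, el, if_pos rfl]
        simp only [ec]
        rw [fib_snoc, up_last, if_pos rfl]
        simp only [up_castSucc]
        rw [fib_last h]
      refine Finset.sum_of_injOn e ?_ ?_ ?_ ?_
      · intro h1 _ h2 _ he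
        apply up_inj
        funext i
        rw [← ec, ← ec, he]
      · intro h1 hh
        simp only [Finset.coe_filter, Finset.mem_univ, true_and, Set.mem_ofPred_eq] at hh ⊢
        intro w
        refine Fin.lastCases ?_ (fun j => ?_) w
        · rw [fl]; exact even_two
        · rw [fc]; exact hh j
      · intro g hg hn
        by_contra h0
        apply hn
        simp only [Finset.mem_filter, Finset.mem_univ, true_and] at hg
        have hp : ∏ i, mat a c i (g i) ≠ 0 := fun hp => h0 (by rw [hp, zero_mul])
        have h1 := last_of_prod_ne a c g hp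
        have h2 : ∀ j : Fin (2 * q), g j.castSucc.castSucc ≠ Fin.last n := by
          intro j hj
          apply hp
          apply Finset.prod_eq_zero (Finset.mem_univ j.castSucc.castSucc)
          rw [hj, mat_cl]
          simp only [c]
          rw [if_neg (Fin.castSucc_ne_last _)]
        have h3 : g (Fin.last (2 * q)).castSucc = Fin.last n := by
          by_contra hne
          have h4 := hg (Fin.last n)
          rw [fib_snoc, h1, if_pos rfl, fib_snoc, if_neg hne, add_zero] at h4
          have h5 : fib (fun i : Fin (2 * q) => g i.castSucc.castSucc) (Fin.last n) = 0 := by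
            rw [fib_eq]
            exact Finset.sum_eq_zero fun i _ => if_neg (h2 i)
          rw [h5] at h4
          exact absurd h4 (by decide)
        obtain ⟨h', hh'⟩ := eq_up (fun i : Fin (2 * q + 1) => g i.castSucc) h3 h2
        have hge : e h' = g := by
          funext i
          refine Fin.lastCases ?_ (fun j => ?_) i
          · rw [el, h1]
          · rw [ec, hh']
        refine ⟨h', ?_, hge⟩
        simp only [Finset.coe_filter, Finset.mem_univ, true_and, Set.mem_ofPred_eq]
        intro v
        rw [← fc, hge]
        exact hg _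
      · intro h1 hh
        congr 1
        · rw [Fin.prod_univ_castSucc, el, mat_ll, mul_one, Fin.prod_univ_castSucc, ec, up_last,
            mat_cl]
          simp only [c, if_true, mul_one, ec, up_castSucc, mat_cc]
        · congr 2
          rw [halfMon, halfMon, Fin.prod_univ_castSucc, fl, x'l, mul_comm]
          simp only [fc, x'c]
          rw [show 2 / 2 = 1 from rfl, pow_one]
    rw [eL, eR]
    exact H1
  · intro i hi
    revert hi
    refine Fin.lastCases ?_ (fun j => ?_) i
    · intro hi
      simp at hi
    · intro _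
      rw [Fin.sum_univ_castSucc, mat_cl, x'l]
      simp only [mat_cc, x'c]
      refine Fin.lastCases ?_ (fun l => ?_) j
      · simp only [c, if_true, one_smul]
        rw [← hom]
        exact two om
      · simp only [c, if_neg (Fin.castSucc_ne_last l), zero_smul, add_zero]
        exact hx l

end Pool.Agent.W655.KS
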